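import Mathlib

set_option autoImplicit false

/-!
# The intersection property of the generating triple of `PSL(2, q)`

In a suitable basis `σ₂` is a standard unipotent matrix, `⟨σ₁, σ₂⟩` consists of matrices over
`F₁ = F_{p^{e₁}}`, and after conjugation with a unipotent matrix with entry `t` the group
`⟨σ₂, σ₃⟩` consists of matrices over `F₂ = F_{p^{e₂}}`.  An element outside `⟨σ₂⟩` in the
intersection would give `t ∈ F₁ + F₂`, which is excluded by a Galois argument.
-/

open Matrix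
open scoped MatrixGroups

namespace Pool.Agent.Results.MP_5bb224_al.Intersection

section field

variable {K : Type} [Field K] {p : ℕ} [Fact p.Prime] [CharP K p]

lemma fix_gcd {a b : ℕ} (hab : Nat.Coprime a b) {x : K} (ha : x ^ p ^ a = x)
    (hb : x ^ p ^ b = x) : x ^ p = x := by
  have h1 : Function.IsPeriodicPt (frobenius K p) a x := by
    rw [Function.IsPeriodicPt, Function.IsFixedPt, iterate_frobenius]; exact ha
  have h2 : Function.IsPeriodicPt (frobenius K p) b x := by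
    rw [Function.IsPeriodicPt, Function.IsFixedPt, iterate_frobenius]; exact hb
  have h3 := h1.gcd h2
  rw [Nat.Coprime] at hab
  rw [hab, Function.IsPeriodicPt, Function.IsFixedPt, iterate_frobenius] at h3
  simpa using h3

/-- The Galois argument, for two commuting ring endomorphisms. -/
lemma no_sum_aux (f g : K →+* K) (hfg : ∀ x, f (g x) = g (f x)) (h2 : (2 : K) ≠ 0)
    {u v d f₁ f₂ : K} (hu : f u = u) (hv : g v = v) (hd : d ^ 2 = 1 - 4 / u ^ 2 - 4 / v ^ 2)
    (h1 : f f₁ = f₁) (h2' : g f₂ = f₂) (hs : d = f₁ + f₂) :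
    g f₁ = f₁ ∨ f f₂ = f₂ := by
  have e : 2 * (f₁ * f₂) = (1 - 4 / u ^ 2 - f₁ ^ 2) + (-(4 / v ^ 2) - f₂ ^ 2) := by
    have : (f₁ + f₂) ^ 2 = 1 - 4 / u ^ 2 - 4 / v ^ 2 := by rw [← hs, hd]
    linear_combination this
  have e' := congrArg (fun x => f (g x) - f x - g x + x) e
  simp only [map_mul, map_add, map_sub, map_neg, map_div₀, map_pow, map_one, map_ofNat, hu, hv,
    h1, h2', hfg] at e'
  have e'' : 2 * ((g f₁ - f₁) * (f f₂ - f₂)) = 0 := by
    linear_combination e'
  rcases mul_eq_zero.1 e'' with h | h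
  · exact absurd h h2
  · rcases mul_eq_zero.1 h with h | h
    · left; exact sub_eq_zero.1 h
    · right; exact sub_eq_zero.1 h

lemma sq_fix {e : ℕ} (he : Odd e) {u : K} (h2 : (2 : K) ≠ 0) (hu : u ^ p ^ e = u)
    (h : (u ^ 2) ^ p = u ^ 2) : u ^ p = u := by
  have h3 : (u ^ p) ^ 2 = u ^ 2 := by rw [← h, ← pow_mul, ← pow_mul, mul_comm]
  have h4 : u ^ p ^ 2 = u := by
    rcases sq_eq_sq_iff_eq_or_eq_neg.1 h3 with h | h
    · rw [pow_two, pow_mul, h, h]
    · have hodd : Odd p := by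
        rcases Nat.Prime.eq_two_or_odd' (Fact.out : p.Prime) with h' | h'
        · exfalso
          apply h2
          have := CharP.cast_eq_zero K p
          rw [h'] at this
          exact_mod_cast this
        · exact h'
      rw [pow_two, pow_mul, h, Odd.neg_pow hodd, h, neg_neg]
  exact fix_gcd (Nat.Coprime.symm (Nat.coprime_two_left.2 he)) hu h4

lemma j_fix {e : ℕ} (he : Odd e) (he1 : 1 < e) {j : K} (hj0 : j ≠ 0)
    (hj : orderOf j = p ^ e - 1) (h : (j + j⁻¹) ^ p = j + j⁻¹) : False := by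
  have hp : p.Prime := Fact.out
  have hp2 := hp.two_le
  have hje : j ^ p ^ e = j := by
    have h1 : j ^ (p ^ e - 1) = 1 := by rw [← hj]; exact pow_orderOf_eq_one j
    have h2 : p ^ e = (p ^ e - 1) + 1 := by
      have : 0 < p ^ e := pow_pos hp.pos e
      omega
    rw [h2, pow_succ, h1, one_mul]
  have hF : (j + j⁻¹) ^ p = j ^ p + (j ^ p)⁻¹ := by
    rw [add_pow_char, inv_pow]
  have hjp0 : j ^ p ≠ 0 := pow_ne_zero _ hj0
  have hq : (j ^ p - j) * (j ^ p - j⁻¹) = 0 := by
    have h3 : j ^ p + (j ^ p)⁻¹ = j + j⁻¹ := by rw [← hF, h]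
    have h4 : (j ^ p) ^ 2 + 1 = (j + j⁻¹) * j ^ p := by
      rw [← h3]; field_simp
    have h5 : j * j⁻¹ = 1 := mul_inv_cancel₀ hj0
    linear_combination h4 + h5
  have h4 : j ^ p ^ 2 = j := by
    rcases mul_eq_zero.1 hq with h | h
    · have h := sub_eq_zero.1 h
      rw [pow_two, pow_mul, h, h]
    · have h := sub_eq_zero.1 h
      rw [pow_two, pow_mul, h, inv_pow, h, inv_inv]
  have h5 : j ^ p = j := fix_gcd (Nat.Coprime.symm (Nat.coprime_two_left.2 he)) hje h4
  have h6 : j ^ (p - 1) = 1 := by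
    have h7 : p = (p - 1) + 1 := by omega
    rw [h7, pow_succ] at h5
    exact mul_right_cancel₀ hj0 (by rw [h5, one_mul])
  have h7 : orderOf j ≤ p - 1 := Nat.le_of_dvd (by omega) (orderOf_dvd_of_pow_eq_one h6)
  rw [hj] at h7
  have h8 : p ^ 1 < p ^ e := Nat.pow_lt_pow_right hp2 he1
  rw [pow_one] at h8
  omega

lemma frob_comm (a b : ℕ) (x : K) :
    iterateFrobenius K p a (iterateFrobenius K p b x) =
      iterateFrobenius K p b (iterateFrobenius K p a x) := by
  rw [iterateFrobenius_def, iterateFrobenius_def, iterateFrobenius_def, iterateFrobenius_def,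
    ← pow_mul, ← pow_mul, mul_comm]

/-- Main field-theoretic fact: `δ` does not lie in `F₁ + F₂`. -/
lemma no_sum {e₁ e₂ : ℕ} (hc : Nat.Coprime e₁ e₂) (o₁ : Odd e₁) (o₂ : Odd e₂)
    (h2 : (2 : K) ≠ 0) {u v d f₁ f₂ : K}
    (hu : u ^ p ^ e₁ = u) (hv : v ^ p ^ e₂ = v) (hu0 : u ≠ 0) (hv0 : v ≠ 0)
    (hup : u ^ p ≠ u) (hvp : v ^ p ≠ v)
    (hd : d ^ 2 = 1 - 4 / u ^ 2 - 4 / v ^ 2)
    (h1 : f₁ ^ p ^ e₁ = f₁) (h2' : f₂ ^ p ^ e₂ = f₂) : d ≠ f₁ + f₂ := by
  intro hs
  have h4 : (4 : K) ≠ 0 := by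
    have : (4 : K) = 2 * 2 := by norm_num
    rw [this]; exact mul_ne_zero h2 h2
  let f := iterateFrobenius K p e₁
  let g := iterateFrobenius K p e₂
  have hf : ∀ x, f x = x ^ p ^ e₁ := fun x => rfl
  have hg : ∀ x, g x = x ^ p ^ e₂ := fun x => rfl
  rcases no_sum_aux f g (frob_comm e₁ e₂) h2 hu hv hd h1 h2' hs with h | h
  · -- `f₁ ∈ F₂`, hence `d ∈ F₂`
    have hgd : g d = d := by rw [hs, map_add, h]; congr 1
    have hgu : g (u ^ 2) = u ^ 2 := by
      have e : 4 / u ^ 2 = 1 - 4 / v ^ 2 - d ^ 2 := by rw [hd]; ring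
      have e2 : g (4 / u ^ 2) = 4 / u ^ 2 := by
        rw [e, map_sub, map_sub, map_div₀, map_pow, map_pow, hgd, map_one, map_ofNat]
        rw [show g v = v from hv]
      rw [map_div₀, map_ofNat] at e2
      have hgu0 : g (u ^ 2) ≠ 0 := (map_ne_zero g).2 (pow_ne_zero 2 hu0)
      have hu20 : u ^ 2 ≠ 0 := pow_ne_zero 2 hu0
      rw [div_eq_div_iff hgu0 hu20] at e2
      exact (mul_left_cancel₀ h4 e2).symm
    have hfu : (u ^ 2) ^ p ^ e₁ = u ^ 2 := by
      rw [← pow_mul, mul_comm, pow_mul, hu]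
    exact hup (sq_fix o₁ h2 hu (fix_gcd hc hfu hgu))
  · have hfd : f d = d := by rw [hs, map_add, h]; congr 1
    have hfv : f (v ^ 2) = v ^ 2 := by
      have e : 4 / v ^ 2 = 1 - 4 / u ^ 2 - d ^ 2 := by rw [hd]; ring
      have e2 : f (4 / v ^ 2) = 4 / v ^ 2 := by
        rw [e, map_sub, map_sub, map_div₀, map_pow, map_pow, hfd, map_one, map_ofNat]
        rw [show f u = u from hu]
      rw [map_div₀, map_ofNat] at e2
      have hfv0 : f (v ^ 2) ≠ 0 := (map_ne_zero f).2 (pow_ne_zero 2 hv0)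
      have hv20 : v ^ 2 ≠ 0 := pow_ne_zero 2 hv0
      rw [div_eq_div_iff hfv0 hv20] at e2
      exact (mul_left_cancel₀ h4 e2).symm
    have hgv : (v ^ 2) ^ p ^ e₂ = v ^ 2 := by
      rw [← pow_mul, mul_comm, pow_mul, hv]
    exact hvp (sq_fix o₂ h2 hv (fix_gcd hc hfv hgv))

end field


section main

variable {K : Type} [Field K] {p : ℕ} [Fact p.Prime] [CharP K p]

/-- The matrices over the fixed field of a ring endomorphism `f` of `K`. -/
def fixedSL (f : K →+* K) : Subgroup SL(2, K) :=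
  (Matrix.SpecialLinearGroup.map (n := Fin 2) f).eqLocus (MonoidHom.id _)

lemma mem_fixedSL (f : K →+* K) (g : SL(2, K)) :
    g ∈ fixedSL f ↔ ∀ i j, f ((g : Matrix (Fin 2) (Fin 2) K) i j) =
      (g : Matrix (Fin 2) (Fin 2) K) i j := by
  have e : g ∈ fixedSL f ↔ Matrix.SpecialLinearGroup.map (n := Fin 2) f g = g := Iff.rfl
  rw [e]
  constructor
  · intro h i j
    have := congrArg (fun m : SL(2, K) => (m : Matrix (Fin 2) (Fin 2) K) i j) h
    simpa using this
  · intro h
    ext i j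
    simpa using h i j

/-- The matrices `g` such that `P⁻¹ g P` has entries fixed by `f`. -/
def conjFixed (f : K →+* K) (P : Matrix (Fin 2) (Fin 2) K) : Subgroup SL(2, K) where
  carrier := {g | ∃ h ∈ fixedSL f, (g : Matrix (Fin 2) (Fin 2) K) * P = P * h}
  one_mem' := ⟨1, one_mem _, by simp⟩
  mul_mem' := by
    rintro a b ⟨h, hh, ha⟩ ⟨k, hk, hb⟩
    refine ⟨h * k, mul_mem hh hk, ?_⟩
    rw [Matrix.SpecialLinearGroup.coe_mul, Matrix.SpecialLinearGroup.coe_mul, mul_assoc, hb, ← mul_assoc, ha,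
      mul_assoc]
  inv_mem' := by
    rintro a ⟨h, hh, ha⟩
    refine ⟨h⁻¹, inv_mem hh, ?_⟩
    have e1 : (↑(a⁻¹) : Matrix (Fin 2) (Fin 2) K) * (a : Matrix (Fin 2) (Fin 2) K) = 1 := by
      rw [← Matrix.SpecialLinearGroup.coe_mul, inv_mul_cancel, Matrix.SpecialLinearGroup.coe_one]
    have e2 : (h : Matrix (Fin 2) (Fin 2) K) * (↑(h⁻¹) : Matrix (Fin 2) (Fin 2) K) = 1 := by
      rw [← Matrix.SpecialLinearGroup.coe_mul, mul_inv_cancel, Matrix.SpecialLinearGroup.coe_one]
    calc (↑(a⁻¹) : Matrix (Fin 2) (Fin 2) K) * P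
        = ↑(a⁻¹) * (P * (h * (↑(h⁻¹) : Matrix (Fin 2) (Fin 2) K))) := by rw [e2, mul_one]
      _ = ↑(a⁻¹) * ((P * h) * (↑(h⁻¹) : Matrix (Fin 2) (Fin 2) K)) := by rw [mul_assoc]
      _ = (↑(a⁻¹) * (a : Matrix (Fin 2) (Fin 2) K)) * (P * ↑(h⁻¹)) := by
          rw [← ha]; simp only [mul_assoc]
      _ = P * ↑(h⁻¹) := by rw [e1, one_mul]

lemma mem_conjFixed (f : K →+* K) (P : Matrix (Fin 2) (Fin 2) K) (g : SL(2, K)) :
    g ∈ conjFixed f P ↔ ∃ h ∈ fixedSL f, (g : Matrix (Fin 2) (Fin 2) K) * P = P * h := Iff.rfl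

lemma sq_eq_one_iff_of_ne_zero' {c : K} (h : c ^ 2 = 1) : c = 1 ∨ c = -1 := by
  have h1 : (c - 1) * (c + 1) = 0 := by linear_combination h
  rcases mul_eq_zero.1 h1 with h2 | h2
  · left; linear_combination h2
  · right; linear_combination h2

/-- elements of the centre are `1` or `-1` -/
lemma center_cases (z : SL(2, K)) (hz : z ∈ Subgroup.center SL(2, K)) : z = 1 ∨ z = -1 := by
  rw [Matrix.SpecialLinearGroup.mem_center_iff] at hz
  obtain ⟨c, hc, hcz⟩ := hz
  have hc2 : c ^ 2 = 1 := by simpa using hc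
  rcases sq_eq_one_iff_of_ne_zero' hc2 with h | h
  · left
    ext i j
    rw [← hcz, h]
    fin_cases i <;> fin_cases j <;> simp
  · right
    ext i j
    rw [← hcz, h]
    fin_cases i <;> fin_cases j <;> simp

/-- the unipotent matrices commuting with `σ₂` -/
def uniMat (s : K) : SL(2, K) := ⟨!![1 + s, s; -s, 1 - s], by
    rw [Matrix.det_fin_two_of]; ring⟩

/-- the one-parameter unipotent group containing `σ₂` -/
def uni (K : Type) [Field K] : Multiplicative K →* SL(2, K) where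
  toFun s := uniMat s.toAdd
  map_one' := by
    ext i j
    fin_cases i <;> fin_cases j <;> simp [uniMat]
  map_mul' s t := by
    ext i j
    rw [Matrix.SpecialLinearGroup.coe_mul]
    fin_cases i <;> fin_cases j <;> simp [uniMat, Matrix.mul_apply] <;> ring

lemma uni_coe (s : K) : ((uni K (Multiplicative.ofAdd s) : SL(2, K)) : Matrix (Fin 2) (Fin 2) K) =
    !![1 + s, s; -s, 1 - s] := rfl

lemma uni_zpow (s : K) (n : ℤ) :
    (uni K (Multiplicative.ofAdd s)) ^ n = uni K (Multiplicative.ofAdd ((n : K) * s)) := by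
  rw [← map_zpow, ← ofAdd_zsmul, zsmul_eq_mul]

end main

/-- The intersection property holds for all data as in the setting. -/
theorem result (p e₁ e₂ : ℕ) (hp : p.Prime) (hp2 : p ≠ 2)
    (he₁ : 1 < e₁) (he₂ : 1 < e₂) (ho₁ : Odd e₁) (ho₂ : Odd e₂) (hc : Nat.Coprime e₁ e₂)
    (K : Type) [Field K] [Finite K] (hK : Nat.card K = p ^ (e₁ * e₂))
    (j₁ j₂ : K) (hj₁ : orderOf j₁ = p ^ e₁ - 1) (hj₂ : orderOf j₂ = p ^ e₂ - 1)
    (ω₁ ω₂ r : K) (hω₁ : ω₁ = j₁ + j₁⁻¹) (hω₂ : ω₂ = j₂ + j₂⁻¹)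
    (hr : r ^ 2 = ω₁ ^ 2 * ω₂ ^ 2 - 4 * (ω₁ ^ 2 + ω₂ ^ 2))
    (σ₁ σ₂ σ₃ : SL(2, K))
    (hσ₁ : (σ₁ : Matrix (Fin 2) (Fin 2) K) = (1 / 2 : K) • !![ω₁, ω₁ + 2; ω₁ - 2, ω₁])
    (hσ₂ : (σ₂ : Matrix (Fin 2) (Fin 2) K) = (1 / 2 : K) • !![2 + ω₁, ω₁; -ω₁, 2 - ω₁])
    (hσ₃ : (σ₃ : Matrix (Fin 2) (Fin 2) K) =
      !![ω₂ / (2 * ω₁) * (ω₁ - 2), r / (2 * ω₁); r / (2 * ω₁), ω₂ / (2 * ω₁) * (ω₁ + 2)]) :
    Subgroup.closure {(σ₁ : PSL(2, K)), (σ₂ : PSL(2, K))} ⊓
      Subgroup.closure {(σ₂ : PSL(2, K)), (σ₃ : PSL(2, K))} =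
      Subgroup.closure {(σ₂ : PSL(2, K))} := by
  have : Fact p.Prime := ⟨hp⟩
  have : Fintype K := Fintype.ofFinite K
  have : CharP K p := charP_of_card_eq_prime_pow (by rw [← Nat.card_eq_fintype_card, hK])
  have hpos := hp.pos
  have hodd : Odd p := hp.odd_of_ne_two hp2
  have h2 : (2 : K) ≠ 0 := by
    intro h
    have h' : ((2 : ℕ) : K) = 0 := by exact_mod_cast h
    rw [CharP.cast_eq_zero_iff K p] at h'
    exact hp2 ((Nat.prime_dvd_prime_iff_eq hp Nat.prime_two).1 h')
  have hfr : ∀ e, ∀ j : K, orderOf j = p ^ e - 1 → j ^ p ^ e = j := by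
    intro e j hj
    have h1 : j ^ (p ^ e - 1) = 1 := by rw [← hj]; exact pow_orderOf_eq_one j
    have h2 : p ^ e = (p ^ e - 1) + 1 := by
      have : 0 < p ^ e := pow_pos hp.pos e
      omega
    rw [h2, pow_succ, h1, one_mul]
  have hne0 : ∀ e, 1 < e → ∀ j : K, orderOf j = p ^ e - 1 → j ≠ 0 := by
    rintro e he j hj rfl
    have h1 : p ^ 1 < p ^ e := Nat.pow_lt_pow_right hp.two_le he
    have h3 := hp.two_le
    rw [pow_one] at h1
    have h4 : (0 : K) ^ (p ^ e - 1) = 1 := by rw [← hj]; exact pow_orderOf_eq_one _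
    rw [zero_pow (by omega)] at h4
    exact one_ne_zero h4.symm
  have hj₁0 := hne0 e₁ he₁ j₁ hj₁
  have hj₂0 := hne0 e₂ he₂ j₂ hj₂
  have hωfix : ∀ e, ∀ j : K, orderOf j = p ^ e - 1 → (j + j⁻¹) ^ p ^ e = j + j⁻¹ := by
    intro e j hj
    rw [add_pow_char_pow, inv_pow, hfr e j hj]
  have hω₁f : ω₁ ^ p ^ e₁ = ω₁ := by rw [hω₁]; exact hωfix e₁ j₁ hj₁
  have hω₂f : ω₂ ^ p ^ e₂ = ω₂ := by rw [hω₂]; exact hωfix e₂ j₂ hj₂
  have hω₁p : ω₁ ^ p ≠ ω₁ := by
    intro h; rw [hω₁] at h; exact j_fix ho₁ he₁ hj₁0 hj₁ h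
  have hω₂p : ω₂ ^ p ≠ ω₂ := by
    intro h; rw [hω₂] at h; exact j_fix ho₂ he₂ hj₂0 hj₂ h
  have hω₁0 : ω₁ ≠ 0 := by
    rintro h; apply hω₁p; rw [h, zero_pow hp.ne_zero]
  have hω₂0 : ω₂ ≠ 0 := by
    rintro h; apply hω₂p; rw [h, zero_pow hp.ne_zero]
  -- the two Frobenius maps
  set f := iterateFrobenius K p e₁ with hf
  set g := iterateFrobenius K p e₂ with hg
  have hfd : ∀ x, f x = x ^ p ^ e₁ := fun x => rfl
  have hgd : ∀ x, g x = x ^ p ^ e₂ := fun x => rfl
  have hf2 : f 2 = 2 := map_ofNat f 2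
  have hg2 : g 2 = 2 := map_ofNat g 2
  have hfω : f ω₁ = ω₁ := hω₁f
  have hgω : g ω₂ = ω₂ := hω₂f
  -- the number `t`
  obtain ⟨t, ht⟩ : ∃ t : K, t = (r / (2 * ω₁) - ω₂ / (2 * ω₁) * (ω₁ + 2)) / ω₂ := ⟨_, rfl⟩
  have hnt : ∀ x y : K, f x = x → g y = y → t ≠ x + y := by
    intro x y hx hy h
    have hd : (r / (ω₁ * ω₂)) ^ 2 = 1 - 4 / ω₁ ^ 2 - 4 / ω₂ ^ 2 := by
      rw [div_pow, hr]; field_simp; ring
    refine no_sum hc ho₁ ho₂ h2 hω₁f hω₂f hω₁0 hω₂0 hω₁p hω₂p hd
      (f₁ := 2 * x + (ω₁ + 2) / ω₁) (f₂ := 2 * y) ?_ ?_ ?_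
    · show f (2 * x + (ω₁ + 2) / ω₁) = 2 * x + (ω₁ + 2) / ω₁
      simp only [map_add, map_mul, map_div₀, map_ofNat, hx, hfω]
    · show g (2 * y) = 2 * y
      simp only [map_mul, map_ofNat, hy]
    · have : r / (ω₁ * ω₂) = 2 * t + (ω₁ + 2) / ω₁ := by
        rw [ht]; field_simp; ring
      rw [this, h]; ring
  let P : Matrix (Fin 2) (Fin 2) K := !![ω₁ / 2, 1 + t * (ω₁ / 2); -(ω₁ / 2), -(t * (ω₁ / 2))]
  have hPdet : IsUnit P.det := by
    have : P.det = ω₁ / 2 := by
      rw [Matrix.det_fin_two]; simp [P]; ring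
    rw [this]
    exact (div_ne_zero hω₁0 h2).isUnit
  -- first group
  have hS1 : Subgroup.closure {σ₁, σ₂} ≤ fixedSL f := by
    rw [Subgroup.closure_le]
    rintro x (rfl | rfl)
    · rw [SetLike.mem_coe, mem_fixedSL]
      intro i j
      rw [hσ₁]
      fin_cases i <;> fin_cases j <;> simp [hfω, hf2]
    · rw [SetLike.mem_coe, mem_fixedSL]
      intro i j
      rw [hσ₂]
      fin_cases i <;> fin_cases j <;> simp [hfω, hf2]
  -- second group
  have hS2 : Subgroup.closure {σ₂, σ₃} ≤ conjFixed g P := by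
    rw [Subgroup.closure_le]
    rintro x (rfl | rfl)
    · refine ⟨(⟨!![1, 1; 0, 1], by simp⟩ : SL(2, K)), (mem_fixedSL g _).2 ?_, ?_⟩
      · intro i j
        fin_cases i <;> fin_cases j <;> simp
      · rw [hσ₂]
        ext i j
        fin_cases i <;> fin_cases j <;> simp [P, Matrix.mul_apply] <;> field_simp <;> ring
    · refine ⟨(⟨!![0, 1 / ω₂; -ω₂, ω₂], by simp [Matrix.det_fin_two, hω₂0]⟩ : SL(2, K)),
        (mem_fixedSL g _).2 ?_, ?_⟩
      · intro i j
        fin_cases i <;> fin_cases j <;> simp [hgω]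
      · rw [hσ₃]
        ext i j
        fin_cases i <;> fin_cases j <;> simp [P, Matrix.mul_apply, ht] <;> field_simp
        · ring
        · linear_combination (-1 : K) * hr
        · ring
        · linear_combination hr
  -- description of the common elements
  have hkey : ∀ x : SL(2, K), x ∈ fixedSL f → x ∈ conjFixed g P →
      ∃ n : ℤ, x = σ₂ ^ n ∨ x = -(σ₂ ^ n) := by
    intro x hx1 hx2
    rw [mem_fixedSL] at hx1
    rw [mem_conjFixed] at hx2
    obtain ⟨h, hh, hxP⟩ := hx2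
    rw [mem_fixedSL] at hh
    have hdx := x.det_coe
    have hdh := h.det_coe
    rw [Matrix.det_fin_two] at hdx hdh
    have q00 := congrFun (congrFun hxP 0) 0
    have q01 := congrFun (congrFun hxP 0) 1
    have q10 := congrFun (congrFun hxP 1) 0
    have q11 := congrFun (congrFun hxP 1) 1
    simp only [P, Matrix.mul_apply, Fin.sum_univ_two, Matrix.of_apply, Matrix.cons_val',
      Matrix.cons_val_zero, Matrix.cons_val_one, Matrix.cons_val_fin_one] at q00 q01 q10 q11
    have a00 := hx1 0 0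
    have a01 := hx1 0 1
    have a10 := hx1 1 0
    have a11 := hx1 1 1
    have b00 := hh 0 0
    have b01 := hh 0 1
    have b10 := hh 1 0
    have b11 := hh 1 1
    generalize hα : (x : Matrix (Fin 2) (Fin 2) K) 0 0 = α at *
    generalize hβ : (x : Matrix (Fin 2) (Fin 2) K) 0 1 = β at *
    generalize hγ : (x : Matrix (Fin 2) (Fin 2) K) 1 0 = γ at *
    generalize hδ : (x : Matrix (Fin 2) (Fin 2) K) 1 1 = δ at *
    generalize (h : Matrix (Fin 2) (Fin 2) K) 0 0 = h00 at *
    generalize (h : Matrix (Fin 2) (Fin 2) K) 0 1 = h01 at *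
    generalize (h : Matrix (Fin 2) (Fin 2) K) 1 0 = h10 at *
    generalize (h : Matrix (Fin 2) (Fin 2) K) 1 1 = h11 at *
    obtain ⟨w, hw⟩ : ∃ w : K, w = ω₁ / 2 := ⟨_, rfl⟩
    rw [← hw] at q00 q01 q10 q11
    have hw0 : w ≠ 0 := by rw [hw]; exact div_ne_zero hω₁0 h2
    have hfw : f w = w := by rw [hw, map_div₀, hfω, hf2]
    -- the entries of `h`
    have e10 : h10 = w * (α - β + γ - δ) := by linear_combination -(q00 + q10)
    have e11 : h11 = (α + γ) + t * h10 := by
      rw [e10]; linear_combination -(q01 + q11)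
    have e00 : h00 = (δ - γ) - t * h10 := by
      apply mul_left_cancel₀ hw0
      linear_combination q10
    have e01 : w * h01 = -γ + w * (t * (δ - γ) - t * h11) := by
      linear_combination q11
    have fc : f h10 = h10 := by
      rw [e10]; simp only [map_mul, map_add, map_sub, hfw, a00, a01, a10, a11]
    have fa : f (δ - γ) = δ - γ := by rw [map_sub, a11, a10]
    have fd : f (α + γ) = α + γ := by rw [map_add, a00, a10]
    have fb : f (-γ / w) = -γ / w := by rw [map_div₀, map_neg, a10, hfw]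
    have e01' : h01 = -γ / w + (t * (δ - γ) - t * h11) := by
      field_simp
      linear_combination e01
    by_cases hc0 : h10 = 0
    · by_cases had : δ - γ = α + γ
      · rw [hc0, mul_zero, add_zero] at e11
        rw [hc0, mul_zero, sub_zero] at e00
        have e2 : h01 = -γ / w := by rw [e01', e11, had]; ring
        have hb1 : h01 ^ p = h01 := fix_gcd hc (by rw [e2]; exact fb) b01
        have hb2 : h01 ∈ (⊥ : Subfield K) := by
          rw [Subfield.mem_bot_iff_pow_eq_self K p]; exact hb1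
        obtain ⟨n, hn⟩ := (mem_bot_iff_intCast p K).1 hb2
        have hsq : (δ - γ) ^ 2 = 1 := by
          rw [e00, e11, hc0, ← had] at hdh
          linear_combination hdh
        have hab : α - β + γ - δ = 0 := by
          rw [e10] at hc0
          exact (mul_eq_zero.1 hc0).resolve_left hw0
        have hγ' : γ = -(h01 * w) := by rw [e2]; field_simp
        have hσu : σ₂ = uni K (Multiplicative.ofAdd w) := by
          ext i j
          rw [hσ₂, uni_coe, hw]
          fin_cases i <;> fin_cases j <;> simp <;> field_simp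
        rcases sq_eq_one_iff_of_ne_zero' hsq with h1 | h1
        · refine ⟨n, Or.inl ?_⟩
          rw [hσu, uni_zpow, hn]
          ext i j
          rw [uni_coe]
          fin_cases i <;> fin_cases j
          · simp only [Fin.zero_eta, Fin.isValue, Matrix.of_apply, Matrix.cons_val',
              Matrix.cons_val_zero, Matrix.cons_val_fin_one]
            rw [hα]; linear_combination -hγ' - had + h1
          · simp only [Fin.zero_eta, Fin.mk_one, Fin.isValue, Matrix.of_apply, Matrix.cons_val',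
              Matrix.cons_val_zero, Matrix.cons_val_one, Matrix.cons_val_fin_one]
            rw [hβ]; linear_combination -hab - hγ' - had 
          · simp only [Fin.zero_eta, Fin.mk_one, Fin.isValue, Matrix.of_apply, Matrix.cons_val',
              Matrix.cons_val_zero, Matrix.cons_val_one, Matrix.cons_val_fin_one]
            rw [hγ]; linear_combination hγ'
          · simp only [Fin.zero_eta, Fin.mk_one, Fin.isValue, Matrix.of_apply, Matrix.cons_val',
              Matrix.cons_val_zero, Matrix.cons_val_one, Matrix.cons_val_fin_one]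
            rw [hδ]; linear_combination hγ' + h1
        · refine ⟨-n, Or.inr ?_⟩
          rw [hσu, uni_zpow, Int.cast_neg, hn]
          ext i j
          rw [Matrix.SpecialLinearGroup.coe_neg, Matrix.neg_apply, uni_coe]
          fin_cases i <;> fin_cases j
          · simp only [Fin.zero_eta, Fin.isValue, Matrix.of_apply, Matrix.cons_val',
              Matrix.cons_val_zero, Matrix.cons_val_fin_one]
            rw [hα]; linear_combination -hγ' - had + h1
          · simp only [Fin.zero_eta, Fin.mk_one, Fin.isValue, Matrix.of_apply, Matrix.cons_val',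
              Matrix.cons_val_zero, Matrix.cons_val_one, Matrix.cons_val_fin_one]
            rw [hβ]; linear_combination -hab - hγ' - had
          · simp only [Fin.zero_eta, Fin.mk_one, Fin.isValue, Matrix.of_apply, Matrix.cons_val',
              Matrix.cons_val_zero, Matrix.cons_val_one, Matrix.cons_val_fin_one]
            rw [hγ]; linear_combination hγ'
          · simp only [Fin.zero_eta, Fin.mk_one, Fin.isValue, Matrix.of_apply, Matrix.cons_val',
              Matrix.cons_val_zero, Matrix.cons_val_one, Matrix.cons_val_fin_one]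
            rw [hδ]; linear_combination hγ' + h1
      · exfalso
        have had' : (δ - γ) - (α + γ) ≠ 0 := sub_ne_zero.2 had
        rw [hc0, mul_zero, add_zero] at e11
        rw [hc0, mul_zero, sub_zero] at e00
        refine hnt (-(-γ / w) / ((δ - γ) - (α + γ))) (h01 / ((δ - γ) - (α + γ))) ?_ ?_ ?_
        · rw [map_div₀, map_neg, fb, map_sub, fa, fd]
        · rw [map_div₀, b01, ← e00, ← e11, map_sub, b00, b11]
        · rw [e01', e11]
          field_simp
          ring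
    · exfalso
      refine hnt ((δ - γ) / h10) (-(h00 / h10)) ?_ ?_ ?_
      · rw [map_div₀, fc, fa]
      · rw [map_neg, map_div₀, b00, b10]
      · rw [e00]
        field_simp
        ring
  apply le_antisymm
  · rintro y ⟨hy1, hy2⟩
    have hcl : ∀ a b : SL(2, K), Subgroup.closure {(a : PSL(2, K)), (b : PSL(2, K))} =
        (Subgroup.closure {a, b}).map (QuotientGroup.mk' (Subgroup.center SL(2, K))) := by
      intro a b
      rw [MonoidHom.map_closure, Set.image_pair]
      rfl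
    rw [SetLike.mem_coe, hcl] at hy1 hy2
    obtain ⟨y₁, hy₁, rfl⟩ := hy1
    obtain ⟨y₂, hy₂, hyy⟩ := hy2
    have hz : y₂⁻¹ * y₁ ∈ Subgroup.center SL(2, K) := QuotientGroup.eq.1 hyy
    have hneg : (-1 : SL(2, K)) ∈ conjFixed g P := by
      refine ⟨-1, ?_, ?_⟩
      · rw [mem_fixedSL]
        intro i j
        fin_cases i <;> fin_cases j <;> simp
      · simp
    have hmem : y₁ ∈ conjFixed g P := by
      have e : y₁ = y₂ * (y₂⁻¹ * y₁) := by group
      rw [e]
      refine mul_mem (hS2 hy₂) ?_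
      rcases center_cases _ hz with h | h
      · rw [h]; exact one_mem _
      · rw [h]; exact hneg
    obtain ⟨n, hn⟩ := hkey y₁ (hS1 hy₁) hmem
    have hn' : (QuotientGroup.mk' (Subgroup.center SL(2, K))) y₁ =
        ((σ₂ : SL(2, K)) : PSL(2, K)) ^ n := by
      rcases hn with h | h
      · rw [h]; rfl
      · rw [h]
        have : ((σ₂ : SL(2, K)) : PSL(2, K)) ^ n = QuotientGroup.mk' _ (σ₂ ^ n) := rfl
        rw [this]
        apply QuotientGroup.eq.2
        rw [Matrix.SpecialLinearGroup.mem_center_iff]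
        refine ⟨-1, by simp, ?_⟩
        have : (-σ₂ ^ n)⁻¹ * σ₂ ^ n = (-1 : SL(2, K)) := by
          rw [inv_mul_eq_iff_eq_mul, neg_mul_neg, mul_one]
        rw [this]
        ext i j
        fin_cases i <;> fin_cases j <;> simp
    rw [hn']
    exact zpow_mem (Subgroup.subset_closure (by simp)) n
  · rw [Subgroup.closure_le]
    rintro y rfl
    exact ⟨Subgroup.subset_closure (by simp), Subgroup.subset_closure (by simp)⟩

end Pool.Agent.Results.MP_5bb224_al.Intersection
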